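import Pool.Agent.Helper26.RR.Lead

/-!
# The point of substitution
-/

set_option autoImplicit false

namespace Pool.Agent.Helper26.RR

open MvPolynomial

section basics

variable {K : Type*} [Field K] {m : ℕ}

/-- the sum of the exponents of all variables but the newest one -/
def ot (s : Fin (m + 1) →₀ ℕ) : ℕ := ∑ i : Fin m, s i.castSucc

theorem degree_eq (s : Fin (m + 1) →₀ ℕ) : s.degree = ot s + s (Fin.last m) := by
  rw [Finsupp.degree_eq_sum, Fin.sum_univ_castSucc]
  rfl

/-- the order at the point `[0 : … : 0 : 1]` of the form of highest degree -/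
noncomputable def bb (F : MvPolynomial (Fin (m + 1)) K) : ℕ :=
  sInf {n | ∃ s ∈ F.support, s.degree = F.totalDegree ∧ ot s = n}

theorem deg_le {F : MvPolynomial (Fin (m + 1)) K} {s : Fin (m + 1) →₀ ℕ} (hs : s ∈ F.support) :
    s.degree ≤ F.totalDegree := le_totalDegree hs

theorem exists_top {F : MvPolynomial (Fin (m + 1)) K} (hF : F ≠ 0) :
    ∃ s ∈ F.support, s.degree = F.totalDegree := by
  obtain ⟨s, hs, h⟩ := Finset.exists_mem_eq_sup F.support (support_nonempty.2 hF)
    (fun s : Fin (m + 1) →₀ ℕ => s.sum fun _ e => e)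
  exact ⟨s, hs, h.symm⟩

theorem bb_spec {F : MvPolynomial (Fin (m + 1)) K} (hF : F ≠ 0) :
    ∃ s ∈ F.support, s.degree = F.totalDegree ∧ ot s = bb F := by
  have hne : {n | ∃ s ∈ F.support, s.degree = F.totalDegree ∧ ot s = n}.Nonempty := by
    obtain ⟨s, hs, h⟩ := exists_top hF
    exact ⟨ot s, s, hs, h, rfl⟩
  exact Nat.sInf_mem hne

theorem bb_le {F : MvPolynomial (Fin (m + 1)) K} {s : Fin (m + 1) →₀ ℕ} (hs : s ∈ F.support)
    (h : s.degree = F.totalDegree) : bb F ≤ ot s := Nat.sInf_le ⟨s, hs, h, rfl⟩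

theorem totalDegree_bind_le {n : ℕ} {g : Fin (m + 1) → MvPolynomial (Fin (n + 1)) K}
    {F : MvPolynomial (Fin (m + 1)) K} {w : Fin (m + 1) → ℕ} {W : ℕ}
    (hg : ∀ i, (g i).totalDegree ≤ w i) (hW : ∀ s ∈ F.support, ∑ i, s i * w i ≤ W) :
    (bind₁ g F).totalDegree ≤ W := by
  have h1 : bind₁ g F = ∑ s ∈ F.support, C (coeff s F) * ∏ i, g i ^ s i := by
    rw [bind₁, aeval_def, eval₂_eq']
    rfl
  rw [h1]
  refine totalDegree_finsetSum_le fun s hs => ?_
  refine (totalDegree_mul _ _).trans ?_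
  rw [totalDegree_C, zero_add]
  refine (totalDegree_finsetProd _ _).trans ((Finset.sum_le_sum fun i _ => ?_).trans (hW s hs))
  exact (totalDegree_pow _ _).trans (Nat.mul_le_mul_left _ (hg i))

end basics

section point

variable (K : Type*) [Field K] (r N : ℕ)

/-- the point of substitution -/
noncomputable def zz : Fin (r + 2) → Polynomial (MvPolynomial (Fin r) K) :=
  Fin.cons (Polynomial.X ^ N)
    (Fin.snoc (fun j : Fin r => Polynomial.X ^ (N + 1) * Polynomial.C (X j)) 1)

theorem zz_zero : zz K r N 0 = Polynomial.X ^ N := by simp [zz]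

theorem zz_mid (j : Fin r) :
    zz K r N j.castSucc.succ = Polynomial.X ^ (N + 1) * Polynomial.C (X j) := by
  simp [zz]

theorem zz_last : zz K r N (Fin.last r).succ = 1 := by
  rw [zz, Fin.cons_succ, Fin.snoc_last]

/-- the middle exponents (as exponents of the coordinates) -/
noncomputable def tu {r : ℕ} (u : Fin (r + 2) →₀ ℕ) : Fin r →₀ ℕ :=
  Finsupp.equivFunOnFinite.symm fun j => u j.castSucc.succ

/-- the first exponents (as exponents of the components) -/
noncomputable def rs {r : ℕ} (s : Fin (r + 2) →₀ ℕ) : Fin r →₀ ℕ :=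
  Finsupp.equivFunOnFinite.symm fun j => s j.castSucc.castSucc

variable {K r N}

theorem prod_X (τ : Fin r →₀ ℕ) :
    ∏ j, (X j : MvPolynomial (Fin r) K) ^ τ j = monomial τ 1 := by
  rw [monomial_eq, C_1, one_mul, Finsupp.prod_fintype _ _ fun _ => pow_zero _]

theorem prod_mid (e : Fin r → ℕ) :
    ∏ j, (Polynomial.X ^ (N + 1) * Polynomial.C (X j : MvPolynomial (Fin r) K)) ^ e j =
      Polynomial.X ^ ((N + 1) * (Finsupp.equivFunOnFinite.symm e).degree) *
        Polynomial.C (monomial (Finsupp.equivFunOnFinite.symm e) 1) := by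
  rw [← prod_X, map_prod]
  simp only [mul_pow, Finset.prod_mul_distrib, ← pow_mul, Finset.prod_pow_eq_pow_sum,
    ← Finset.mul_sum, map_pow]
  rw [Finsupp.degree_eq_sum]
  rfl

theorem prod_zz (u : Fin (r + 2) →₀ ℕ) :
    ∏ i, zz K r N i ^ u i = Polynomial.X ^ (N * u 0 + (N + 1) * (tu u).degree) *
      Polynomial.C (monomial (tu u) 1) := by
  rw [Fin.prod_univ_succ, Fin.prod_univ_castSucc, zz_zero, zz_last, one_pow, mul_one]
  simp only [zz_mid]
  rw [prod_mid fun j => u j.castSucc.succ, pow_add, ← pow_mul, mul_assoc]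
  rfl

theorem prod_zz_succ (s : Fin (r + 2) →₀ ℕ) :
    ∏ i : Fin (r + 1), zz K r N i.succ ^ s i.castSucc =
      Polynomial.X ^ ((N + 1) * (rs s).degree) * Polynomial.C (monomial (rs s) 1) := by
  rw [Fin.prod_univ_castSucc, zz_last, one_pow, mul_one]
  simp only [zz_mid]
  exact prod_mid fun j => s j.castSucc.castSucc

theorem ot_eq_tu (u : Fin (r + 2) →₀ ℕ) : ot u = u 0 + (tu u).degree := by
  unfold ot
  rw [Fin.sum_univ_succ, Finsupp.degree_eq_sum]
  rfl

theorem ot_eq_rs (s : Fin (r + 2) →₀ ℕ) : ot s = (rs s).degree + s (Fin.last r).castSucc := by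
  unfold ot
  rw [Fin.sum_univ_castSucc, Finsupp.degree_eq_sum]
  rfl

end point

end Pool.Agent.Helper26.RR
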