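import Pool.Agent.Helper26.RR.Base

/-!
# The leading coefficient of the new value
-/

set_option autoImplicit false

namespace Pool.Agent.Helper26.RR

open MvPolynomial

variable {K : Type*} [Field K] {r d N : ℕ}

/-- the substitution -/
noncomputable def LL (K : Type*) [Field K] (r N : ℕ) :
    MvPolynomial (Fin (r + 2)) K →ₐ[K] Polynomial (Polynomial (MvPolynomial (Fin r) K)) :=
  aeval fun i => Polynomial.C (zz K r N i) * Polynomial.X

/-- the exponent of the small parameter -/
noncomputable def ee (N : ℕ) {r : ℕ} (u : Fin (r + 2) →₀ ℕ) : ℕ :=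
  N * u 0 + (N + 1) * (tu u).degree

theorem LL_coeff (P : MvPolynomial (Fin (r + 2)) K) (n : ℕ) (hn : P.totalDegree ≤ n) :
    (LL K r N P).natDegree ≤ n ∧ (LL K r N P).coeff n = ∑ u ∈ P.support with u.degree = n,
      Polynomial.C (C (coeff u P)) * (Polynomial.X ^ ee N u * Polynomial.C (monomial (tu u) 1)) := by
  classical
  have h1 := aeval_top (R := Polynomial (MvPolynomial (Fin r) K)) P (fun _ => 1) n
    (fun s hs => by
      simp only [mul_one]
      rw [← Finsupp.degree_eq_sum]
      exact (deg_le hs).trans hn)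
    (fun i => Polynomial.C (zz K r N i) * Polynomial.X)
    (fun i => (Polynomial.natDegree_C_mul_le _ _).trans Polynomial.natDegree_X_le)
  refine ⟨h1.1, ?_⟩
  have h2 : (LL K r N P).coeff n = _ := h1.2
  rw [h2]
  simp only [mul_one, ← Finsupp.degree_eq_sum]
  refine Finset.sum_congr rfl fun u _ => ?_
  simp only [Polynomial.coeff_C_mul_X, if_true]
  rw [prod_zz]
  rfl

theorem ext_tu {u v : Fin (r + 2) →₀ ℕ} (h0 : u 0 = v 0) (ht : tu u = tu v)
    (hd : u.degree = v.degree) : u = v := by
  have hl : u (Fin.last (r + 1)) = v (Fin.last (r + 1)) := by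
    have h1 := degree_eq u
    have h2 := degree_eq v
    have h3 := ot_eq_tu u
    have h4 := ot_eq_tu v
    rw [h0, ht] at h3
    omega
  ext i
  refine Fin.cases h0 (fun i => ?_) i
  refine Fin.lastCases ?_ (fun j => ?_) i
  · rw [Fin.succ_last]
    exact hl
  · exact DFunLike.congr_fun ht j

/-- the exponent of the pure power of the newest value -/
noncomputable def u0 (r d : ℕ) : Fin (r + 2) →₀ ℕ := Finsupp.single (Fin.last (r + 1)) d

/-- the exponent of the oldest value times a power of the newest value -/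
noncomputable def u1 (r d : ℕ) : Fin (r + 2) →₀ ℕ :=
  Finsupp.single 0 1 + Finsupp.single (Fin.last (r + 1)) (d - 1)

theorem last_ne_zero' : (Fin.last (r + 1)) ≠ 0 := by
  rw [Ne, Fin.ext_iff]
  simp

theorem mid_ne_last (j : Fin r) : (j.castSucc.succ : Fin (r + 2)) ≠ Fin.last (r + 1) := by
  rw [Ne, Fin.ext_iff]
  simp only [Fin.val_succ, Fin.val_castSucc, Fin.val_last]
  omega

theorem u0_zero : u0 r d 0 = 0 := by
  rw [u0, Finsupp.single_eq_of_ne last_ne_zero'.symm]

theorem tu_u0 : tu (u0 r d) = 0 := by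
  ext j
  change u0 r d j.castSucc.succ = 0
  rw [u0, Finsupp.single_eq_of_ne (mid_ne_last j)]

theorem u0_degree : (u0 r d).degree = d := by simp [u0]

theorem u1_zero : u1 r d 0 = 1 := by
  rw [u1, Finsupp.add_apply, Finsupp.single_eq_same, Finsupp.single_eq_of_ne last_ne_zero'.symm,
    add_zero]

theorem tu_u1 : tu (u1 r d) = 0 := by
  ext j
  change u1 r d j.castSucc.succ = 0
  rw [u1, Finsupp.add_apply, Finsupp.single_eq_of_ne (Fin.succ_ne_zero _),
    Finsupp.single_eq_of_ne (mid_ne_last j), add_zero]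

theorem u1_degree (hd : 1 ≤ d) : (u1 r d).degree = d := by
  rw [u1, map_add, Finsupp.degree_single, Finsupp.degree_single]
  omega

theorem coeff_LL (f : MvPolynomial (Fin (r + 2)) K) (hf : f.totalDegree ≤ d) (k : ℕ)
    (v : Fin (r + 2) →₀ ℕ) (hv : ∀ u : Fin (r + 2) →₀ ℕ, u.degree = d → (k = ee N u ↔ u = v))
    (hvd : v.degree = d) (htv : tu v = 0) :
    ((LL K r N f).coeff d).coeff k = C (coeff v f) := by
  classical
  rw [(LL_coeff f d hf).2, Polynomial.finsetSum_coeff]
  have h1 : ∀ u ∈ f.support.filter (fun u => u.degree = d),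
      (Polynomial.C (C (coeff u f)) * (Polynomial.X ^ ee N u * Polynomial.C (monomial (tu u) 1)) :
        Polynomial (MvPolynomial (Fin r) K)).coeff k =
      if u = v then C (coeff u f) * monomial (tu u) 1 else 0 := by
    intro u hu
    rw [Finset.mem_filter] at hu
    rw [Polynomial.coeff_C_mul, mul_comm (Polynomial.X ^ _), Polynomial.coeff_C_mul_X_pow]
    by_cases h : u = v
    · rw [if_pos ((hv u hu.2).2 h), if_pos h]
    · rw [if_neg (fun h' => h ((hv u hu.2).1 h')), if_neg h, mul_zero]
  rw [Finset.sum_congr rfl h1, Finset.sum_ite_eq']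
  split_ifs with h
  · rw [htv]
    simp
  · have h2 : coeff v f = 0 := by
      by_contra hne
      exact h (Finset.mem_filter.2 ⟨mem_support_iff.2 hne, hvd⟩)
    rw [h2, C_0]

theorem ee_eq_zero (hN : 1 ≤ N) {u : Fin (r + 2) →₀ ℕ} (hu : u.degree = d) :
    0 = ee N u ↔ u = u0 r d := by
  constructor
  · intro h
    unfold ee at h
    have h1 : N * u 0 = 0 := by omega
    have h2 : (N + 1) * (tu u).degree = 0 := by omega
    have h3 : u 0 = 0 := by
      rcases Nat.mul_eq_zero.1 h1 with h4 | h4
      · omega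
      · exact h4
    have h5 : (tu u).degree = 0 := by
      rcases Nat.mul_eq_zero.1 h2 with h4 | h4
      · omega
      · exact h4
    refine ext_tu (h3.trans u0_zero.symm) ?_ (hu.trans u0_degree.symm)
    rw [tu_u0, ← Finsupp.degree_eq_zero_iff]
    exact h5
  · rintro rfl
    unfold ee
    rw [u0_zero, tu_u0]
    simp

theorem ee_eq_N (hN : 1 ≤ N) (hd : 1 ≤ d) {u : Fin (r + 2) →₀ ℕ} (hu : u.degree = d) :
    N = ee N u ↔ u = u1 r d := by
  constructor
  · intro h
    unfold ee at h
    have h5 : (tu u).degree = 0 := by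
      by_contra hne
      have h4 : (N + 1) * 1 ≤ (N + 1) * (tu u).degree := Nat.mul_le_mul_left _ (by omega)
      omega
    rw [h5, mul_zero, add_zero] at h
    have h3 : u 0 = 1 := by
      have h4 : N * 1 = N * u 0 := by omega
      exact (Nat.eq_of_mul_eq_mul_left (by omega) h4).symm
    refine ext_tu (h3.trans u1_zero.symm) ?_ (hu.trans (u1_degree hd).symm)
    rw [tu_u1, ← Finsupp.degree_eq_zero_iff]
    exact h5
  · rintro rfl
    unfold ee
    rw [u1_zero, tu_u1]
    simp

theorem coeff_LL_zero (f : MvPolynomial (Fin (r + 2)) K) (hf : f.totalDegree ≤ d) (k : ℕ)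
    (hk0 : 0 < k) (hkN : k < N) : ((LL K r N f).coeff d).coeff k = 0 := by
  classical
  rw [(LL_coeff f d hf).2, Polynomial.finsetSum_coeff]
  refine Finset.sum_eq_zero fun u _ => ?_
  rw [Polynomial.coeff_C_mul, mul_comm (Polynomial.X ^ _), Polynomial.coeff_C_mul_X_pow, if_neg,
    mul_zero]
  intro h
  unfold ee at h
  have h5 : (tu u).degree = 0 := by
    by_contra hne
    have h4 : (N + 1) * 1 ≤ (N + 1) * (tu u).degree := Nat.mul_le_mul_left _ (by omega)
    omega
  rw [h5, mul_zero, add_zero] at h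
  have h6 : u 0 = 0 := by
    by_contra hne
    have h4 : N * 1 ≤ N * u 0 := Nat.mul_le_mul_left _ (by omega)
    omega
  rw [h6] at h
  omega

/-- The leading coefficient of the new value. -/
theorem alpha_spec (hN : 1 ≤ N) (hd : 1 ≤ d) (f : MvPolynomial (Fin (r + 2)) K)
    (hf : f.totalDegree ≤ d) : ∃ β : Polynomial (MvPolynomial (Fin r) K),
      (LL K r N f).coeff d = Polynomial.C (C (coeff (u0 r d) f)) + Polynomial.X ^ N * β ∧
      β.coeff 0 = C (coeff (u1 r d) f) := by
  have h0 := coeff_LL f hf 0 (u0 r d) (fun u hu => ee_eq_zero hN hu) u0_degree tu_u0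
    (N := N)
  have h1 := coeff_LL f hf N (u1 r d) (fun u hu => ee_eq_N hN hd hu) (u1_degree hd) tu_u1
    (N := N)
  have hdvd : Polynomial.X ^ N ∣
      (LL K r N f).coeff d - Polynomial.C (C (coeff (u0 r d) f)) := by
    rw [Polynomial.X_pow_dvd_iff]
    intro k hk
    rw [Polynomial.coeff_sub]
    by_cases hk0 : k = 0
    · rw [hk0, h0, Polynomial.coeff_C_zero, sub_self]
    · rw [coeff_LL_zero f hf k (by omega) hk, Polynomial.coeff_C_of_ne_zero hk0, sub_self]
  obtain ⟨β, hβ⟩ := hdvd
  refine ⟨β, ?_, ?_⟩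
  · rw [← hβ]
    ring
  · have h2 : (Polynomial.X ^ N * β).coeff N = β.coeff 0 := by
      have := Polynomial.coeff_X_pow_mul β N 0
      rwa [zero_add] at this
    rw [← h2, ← hβ, Polynomial.coeff_sub, h1, Polynomial.coeff_C_of_ne_zero (by omega), sub_zero]

end Pool.Agent.Helper26.RR
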