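import Mathlib

/-!
# The shift map of a nonlinear recurrence

The newest value is the last coordinate.
-/

set_option autoImplicit false

namespace Pool.Agent.Helper26.RR

open MvPolynomial

/-- The components of the shift map `(x₀, …, x_m) ↦ (x₁, …, x_m, f(x))`. -/
noncomputable def sh {R : Type*} [CommSemiring R] {m : ℕ} (f : MvPolynomial (Fin (m + 1)) R) :
    Fin (m + 1) → MvPolynomial (Fin (m + 1)) R :=
  Fin.snoc (fun i : Fin m => X i.succ) f

theorem sh_last {R : Type*} [CommSemiring R] {m : ℕ} (f : MvPolynomial (Fin (m + 1)) R) :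
    sh f (Fin.last m) = f := by
  simp [sh]

theorem sh_castSucc {R : Type*} [CommSemiring R] {m : ℕ} (f : MvPolynomial (Fin (m + 1)) R)
    (i : Fin m) : sh f i.castSucc = X i.succ := by
  simp [sh]

end Pool.Agent.Helper26.RR
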