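import Pool.Agent.Helper26.RR.Alpha

/-!
# The leading coefficient of the composition
-/

set_option autoImplicit false

namespace Pool.Agent.Helper26.RR

open MvPolynomial

variable {K : Type*} [Field K] {r d N : ℕ}

/-- the weight -/
def wt (d : ℕ) {m : ℕ} (s : Fin (m + 1) →₀ ℕ) : ℕ := d * s (Fin.last m) + ot s

theorem wt_eq {m : ℕ} (s : Fin (m + 1) →₀ ℕ) :
    ∑ i, s i * (if i = Fin.last m then d else 1) = wt d s := by
  rw [Fin.sum_univ_castSucc, if_pos rfl, wt, add_comm, mul_comm]
  congr 1
  refine Finset.sum_congr rfl fun i _ => ?_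
  rw [if_neg (Fin.castSucc_lt_last i).ne, mul_one]

/-- the degree of the components -/
theorem totalDegree_sh {f : MvPolynomial (Fin (r + 2)) K} (hf : f.totalDegree ≤ d)
    (i : Fin (r + 2)) :
    (sh f i).totalDegree ≤ if i = Fin.last (r + 1) then d else 1 := by
  refine Fin.lastCases ?_ (fun i => ?_) i
  · rw [if_pos rfl, sh_last]
    exact hf
  · rw [if_neg (Fin.castSucc_lt_last i).ne, sh_castSucc, totalDegree_X]

theorem totalDegree_comp_le {f : MvPolynomial (Fin (r + 2)) K} (hf : f.totalDegree ≤ d)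
    {F : MvPolynomial (Fin (r + 2)) K} {W : ℕ} (hW : ∀ s ∈ F.support, wt d s ≤ W) :
    (bind₁ (sh f) F).totalDegree ≤ W :=
  totalDegree_bind_le (m := r + 1) (n := r + 1) (totalDegree_sh hf) fun s hs => by
    rw [wt_eq]
    exact hW s hs

theorem lambda_formula {f : MvPolynomial (Fin (r + 2)) K} (hf : f.totalDegree ≤ d)
    {F : MvPolynomial (Fin (r + 2)) K} {W : ℕ} (hW : ∀ s ∈ F.support, wt d s ≤ W) :
    (LL K r N (bind₁ (sh f) F)).coeff W = ∑ s ∈ F.support with wt d s = W,
      Polynomial.C (C (coeff s F)) * (((LL K r N f).coeff d) ^ (s (Fin.last (r + 1))) *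
        (Polynomial.X ^ ((N + 1) * (rs s).degree) * Polynomial.C (monomial (rs s) 1))) := by
  classical
  have h1 : LL K r N (bind₁ (sh f) F) = aeval (fun i => LL K r N (sh f i)) F := by
    rw [LL, aeval_bind₁]
  have hX : ∀ i : Fin (r + 2), LL K r N (X i) = Polynomial.C (zz K r N i) * Polynomial.X := by
    intro i
    rw [LL, aeval_X]
  have h2 := aeval_top (R := Polynomial (MvPolynomial (Fin r) K)) F
    (fun i => if i = Fin.last (r + 1) then d else 1) W
    (fun s hs => by
      rw [wt_eq]
      exact hW s hs)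
    (fun i => LL K r N (sh f i))
    (fun i => by
      refine Fin.lastCases ?_ (fun i => ?_) i
      · rw [if_pos rfl, sh_last]
        exact (LL_coeff f d hf).1
      · rw [if_neg (Fin.castSucc_lt_last i).ne, sh_castSucc, hX]
        exact (Polynomial.natDegree_C_mul_le _ _).trans Polynomial.natDegree_X_le)
  rw [h1, h2.2]
  simp only [wt_eq]
  refine Finset.sum_congr rfl fun s _ => ?_
  congr 1
  rw [Fin.prod_univ_castSucc, if_pos rfl, sh_last, mul_comm]
  congr 1
  rw [← prod_zz_succ]
  refine Finset.prod_congr rfl fun i _ => ?_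
  rw [if_neg (Fin.castSucc_lt_last i).ne, sh_castSucc, hX, Polynomial.coeff_C_mul_X, if_pos rfl]

theorem ext_rs {s t : Fin (r + 2) →₀ ℕ} (h : rs s = rs t)
    (hl : s (Fin.last (r + 1)) = t (Fin.last (r + 1))) (hw : wt d s = wt d t) : s = t := by
  have hr : s (Fin.last r).castSucc = t (Fin.last r).castSucc := by
    unfold wt at hw
    rw [hl] at hw
    have h1 := ot_eq_rs s
    have h2 := ot_eq_rs t
    rw [h] at h1
    omega
  ext i
  refine Fin.lastCases hl (fun i => ?_) i
  refine Fin.lastCases hr (fun j => ?_) i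
  exact DFunLike.congr_fun h j

/-- the value of a polynomial at the leading coefficient of the new value -/
theorem aeval_alpha {a g : K} {α β : Polynomial (MvPolynomial (Fin r) K)} (hN : 1 ≤ N)
    (hα : α = Polynomial.C (C a) + Polynomial.X ^ N * β) (hβ : β.coeff 0 = C g) (hg : g ≠ 0)
    {p : Polynomial K} (hp : p ≠ 0) :
    ∃ (E : Polynomial (MvPolynomial (Fin r) K)) (κ : K) (q : Polynomial K),
      κ ≠ 0 ∧ E.coeff 0 = C κ ∧
      Polynomial.aeval α p = Polynomial.X ^ (N * p.rootMultiplicity a) * E ∧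
      p = (Polynomial.X - Polynomial.C a) ^ p.rootMultiplicity a * q ∧ q.eval a ≠ 0 := by
  obtain ⟨q, hq, hnd⟩ := Polynomial.exists_eq_pow_rootMultiplicity_mul_and_not_dvd p hp a
  have hqa : q.eval a ≠ 0 := fun h => hnd (Polynomial.dvd_iff_isRoot.2 h)
  have hα0 : α.coeff 0 = C a := by
    rw [hα, Polynomial.coeff_add, Polynomial.coeff_C_zero, Polynomial.mul_coeff_zero,
      Polynomial.coeff_X_pow, if_neg (by omega), zero_mul, add_zero]
  have hqα : (Polynomial.aeval α q).coeff 0 = C (q.eval a) := by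
    have h1 : Polynomial.constantCoeff (Polynomial.aeval α q) =
        Polynomial.eval₂ (Polynomial.constantCoeff.comp (algebraMap K _))
          (Polynomial.constantCoeff α) q := by
      rw [Polynomial.aeval_def, Polynomial.hom_eval₂]
    have h2 : (Polynomial.constantCoeff.comp
        (algebraMap K (Polynomial (MvPolynomial (Fin r) K)))) =
        (C : K →+* MvPolynomial (Fin r) K) := by
      ext x
      simp [Polynomial.algebraMap_apply]
    rw [h2, Polynomial.constantCoeff_apply, Polynomial.constantCoeff_apply, hα0,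
      Polynomial.eval₂_at_apply] at h1
    exact h1
  refine ⟨β ^ p.rootMultiplicity a * Polynomial.aeval α q, g ^ p.rootMultiplicity a * q.eval a, q,
    mul_ne_zero (pow_ne_zero _ hg) hqa, ?_, ?_, hq, hqa⟩
  · rw [Polynomial.mul_coeff_zero, hqα, C_mul, C_pow, ← hβ]
    congr 1
    rw [← Polynomial.constantCoeff_apply, map_pow, Polynomial.constantCoeff_apply]
  · conv_lhs => rw [hq]
    rw [map_mul, map_pow, map_sub, Polynomial.aeval_X, Polynomial.aeval_C]
    have h3 : α - algebraMap K (Polynomial (MvPolynomial (Fin r) K)) a = Polynomial.X ^ N * β := by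
      rw [hα, Polynomial.algebraMap_apply]
      simp
    rw [h3, mul_pow, ← pow_mul, mul_assoc]

end Pool.Agent.Helper26.RR
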