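import Pool.Agent.Helper26.RR.Defs

/-!
# Leading coefficients of a substitution
-/

set_option autoImplicit false

namespace Pool.Agent.Helper26.RR

open MvPolynomial

theorem prod_top {ι : Type*} {R : Type*} [CommRing R] (t : Finset ι) (w e : ι → ℕ)
    (y : ι → Polynomial R) (hy : ∀ i, (y i).natDegree ≤ w i) :
    (∏ i ∈ t, y i ^ e i).natDegree ≤ ∑ i ∈ t, e i * w i ∧
    (∏ i ∈ t, y i ^ e i).coeff (∑ i ∈ t, e i * w i) = ∏ i ∈ t, (y i).coeff (w i) ^ e i := by
  classical
  induction t using Finset.induction_on with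
  | empty => simp
  | insert j t hj ih =>
    rw [Finset.prod_insert hj, Finset.sum_insert hj, Finset.prod_insert hj]
    have h1 : (y j ^ e j).natDegree ≤ e j * w j := Polynomial.natDegree_pow_le_of_le _ (hy j)
    refine ⟨Polynomial.natDegree_mul_le_of_le h1 ih.1, ?_⟩
    rw [Polynomial.coeff_mul_add_eq_of_natDegree_le h1 ih.1, ih.2,
      Polynomial.coeff_pow_of_natDegree_le (hy j)]

variable {K : Type*} [Field K]

/-- The leading coefficient of the value of a polynomial at a tuple of polynomials in one variable,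
with respect to bounds for the degrees of the tuple. -/
theorem aeval_top {ι : Type*} [Fintype ι] {R : Type*} [CommRing R] [Algebra K R]
    (F : MvPolynomial ι K) (w : ι → ℕ) (W : ℕ) (hW : ∀ s ∈ F.support, ∑ i, s i * w i ≤ W)
    (y : ι → Polynomial R) (hy : ∀ i, (y i).natDegree ≤ w i) :
    (aeval y F).natDegree ≤ W ∧ (aeval y F).coeff W =
      ∑ s ∈ F.support with ∑ i, s i * w i = W,
        algebraMap K R (coeff s F) * ∏ i, (y i).coeff (w i) ^ s i := by
  classical
  have h1 : aeval y F =
      ∑ s ∈ F.support, Polynomial.C (algebraMap K R (coeff s F)) * ∏ i, y i ^ s i := by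
    rw [aeval_def, eval₂_eq']
    rfl
  have h2 : ∀ s ∈ F.support,
      (Polynomial.C (algebraMap K R (coeff s F)) * ∏ i, y i ^ s i).natDegree ≤
        ∑ i, s i * w i := fun s _ =>
    (Polynomial.natDegree_C_mul_le _ _).trans (prod_top Finset.univ w s y hy).1
  constructor
  · rw [h1]
    exact Polynomial.natDegree_sum_le_of_forall_le _ _ fun s hs => (h2 s hs).trans (hW s hs)
  · rw [h1, Polynomial.finsetSum_coeff, Finset.sum_filter]
    refine Finset.sum_congr rfl fun s hs => ?_
    split_ifs with h
    · rw [Polynomial.coeff_C_mul, ← h, (prod_top Finset.univ w s y hy).2]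
    · exact Polynomial.coeff_eq_zero_of_natDegree_lt
        (lt_of_le_of_lt (h2 s hs) (lt_of_le_of_ne (hW s hs) h))

end Pool.Agent.Helper26.RR
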