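import Pool.Agent.Helper26.RR.Lambda

/-!
# The lowest coefficient
-/

set_option autoImplicit false

namespace Pool.Agent.Helper26.RR

open MvPolynomial

variable {K : Type*} [Field K] {r N : ℕ}

/-- The order of the leading coefficient in the small parameter. -/
theorem low {T : Finset (Fin r →₀ ℕ)} (n : (Fin r →₀ ℕ) → ℕ)
    (E : (Fin r →₀ ℕ) → Polynomial (MvPolynomial (Fin r) K)) (κ : (Fin r →₀ ℕ) → K)
    (hE : ∀ τ ∈ T, (E τ).coeff 0 = C (κ τ)) (hκ : ∀ τ ∈ T, κ τ ≠ 0)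
    {γ : Polynomial (MvPolynomial (Fin r) K)} (hγ : γ.coeff 0 ≠ 0) {τ₀ : Fin r →₀ ℕ}
    (hτ₀ : τ₀ ∈ T) (hmin : ∀ τ ∈ T, n τ₀ ≤ n τ) :
    (γ * ∑ τ ∈ T, Polynomial.X ^ n τ * (Polynomial.C (monomial τ 1) * E τ)).coeff (n τ₀) ≠ 0 := by
  classical
  have h1 : ∑ τ ∈ T, Polynomial.X ^ n τ * (Polynomial.C (monomial τ 1) * E τ) =
      Polynomial.X ^ n τ₀ *
        ∑ τ ∈ T, Polynomial.X ^ (n τ - n τ₀) * (Polynomial.C (monomial τ 1) * E τ) := by
    rw [Finset.mul_sum]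
    refine Finset.sum_congr rfl fun τ hτ => ?_
    rw [← mul_assoc (Polynomial.X ^ n τ₀), ← pow_add, Nat.add_sub_cancel' (hmin τ hτ)]
  have h2 : (∑ τ ∈ T, Polynomial.X ^ (n τ - n τ₀) * (Polynomial.C (monomial τ 1) * E τ)).coeff 0
      ≠ 0 := by
    intro h3
    have h4 := congrArg (MvPolynomial.coeff τ₀) h3
    rw [Polynomial.finsetSum_coeff, MvPolynomial.coeff_sum, MvPolynomial.coeff_zero] at h4
    rw [Finset.sum_eq_single τ₀] at h4
    · rw [Polynomial.mul_coeff_zero, Nat.sub_self, pow_zero, Polynomial.coeff_one_zero, one_mul,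
        Polynomial.mul_coeff_zero, Polynomial.coeff_C_zero, hE τ₀ hτ₀, mul_comm,
        MvPolynomial.coeff_C_mul, MvPolynomial.coeff_monomial, if_pos rfl, mul_one] at h4
      exact hκ τ₀ hτ₀ h4
    · intro τ hτ hne
      rw [Polynomial.mul_coeff_zero, Polynomial.mul_coeff_zero, Polynomial.coeff_C_zero, hE τ hτ]
      rw [mul_comm (monomial τ 1) (C (κ τ)), mul_left_comm, MvPolynomial.coeff_C_mul]
      rw [Polynomial.coeff_X_pow]
      split_ifs
      · rw [one_mul, MvPolynomial.coeff_monomial, if_neg hne, mul_zero]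
      · rw [zero_mul, MvPolynomial.coeff_zero, mul_zero]
    · intro h
      exact absurd hτ₀ h
  rw [h1, mul_left_comm]
  have h3 : (Polynomial.X ^ n τ₀ * (γ * ∑ τ ∈ T, Polynomial.X ^ (n τ - n τ₀) *
      (Polynomial.C (monomial τ 1) * E τ))).coeff (n τ₀) = (γ * ∑ τ ∈ T,
        Polynomial.X ^ (n τ - n τ₀) * (Polynomial.C (monomial τ 1) * E τ)).coeff 0 := by
    have := Polynomial.coeff_X_pow_mul (γ * ∑ τ ∈ T,
        Polynomial.X ^ (n τ - n τ₀) * (Polynomial.C (monomial τ 1) * E τ)) (n τ₀) 0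
    rwa [zero_add] at this
  rw [h3, Polynomial.mul_coeff_zero]
  exact mul_ne_zero hγ h2

end Pool.Agent.Helper26.RR
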