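import Pool.Agent.Helper26.RR.Low

/-!
# One step
-/

set_option autoImplicit false

namespace Pool.Agent.Helper26.RR

open MvPolynomial

variable {K : Type*} [Field K] {r d : ℕ}

/-- arithmetic of the weights -/
theorem arith1 {d D b x o : ℕ} (hd : 2 ≤ d) (hb : b ≤ D) (h1 : d * (D - b) + b ≤ d * x + o)
    (h2 : o + x ≤ D) : D - b ≤ x := by
  obtain ⟨c, rfl⟩ : ∃ c, D = b + c := ⟨D - b, by omega⟩
  obtain ⟨e, rfl⟩ : ∃ e, d = e + 2 := ⟨d - 2, by omega⟩
  rw [Nat.add_sub_cancel_left] at *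
  by_contra hx
  push Not at hx
  obtain ⟨k, rfl⟩ : ∃ k, c = x + 1 + k := ⟨c - x - 1, by omega⟩
  nlinarith [Nat.zero_le (e * k), Nat.zero_le e, Nat.zero_le k]

/-- arithmetic of the weights -/
theorem arith2 {d D b ρ W x0 x1 o0 o1 t : ℕ} (hd : 2 ≤ d) (hb : b ≤ D) (hρ : 1 ≤ ρ)
    (hx0 : x0 = D - b) (hx1 : x1 = D - b + ρ) (h0 : d * x0 + o0 = W) (h1 : d * x1 + o1 = W)
    (h0' : o0 + x0 ≤ D) (_h1' : o1 + x1 ≤ D) (ht : t + ρ = b) (ht1 : t ≤ o1) : False := by
  subst hx0 hx1
  obtain ⟨c, rfl⟩ : ∃ c, D = b + c := ⟨D - b, by omega⟩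
  obtain ⟨e, rfl⟩ : ∃ e, d = e + 2 := ⟨d - 2, by omega⟩
  rw [Nat.add_sub_cancel_left] at *
  nlinarith [Nat.zero_le (e * ρ)]

theorem step (hd : 2 ≤ d) {f : MvPolynomial (Fin (r + 2)) K} (hf : f.totalDegree ≤ d)
    (ha : coeff (u0 r d) f ≠ 0) (hg : coeff (u1 r d) f ≠ 0)
    {F : MvPolynomial (Fin (r + 2)) K} (hF : F ≠ 0) :
    bind₁ (sh f) F ≠ 0 ∧ bb (bind₁ (sh f) F) ≤ bb F ∧
    (bb (bind₁ (sh f) F) = bb F → ∀ s ∈ F.support, s.degree = F.totalDegree → ot s = bb F →
      s (Fin.last r).castSucc = 0 ∧ ∃ s' ∈ (bind₁ (sh f) F).support,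
        s'.degree = (bind₁ (sh f) F).totalDegree ∧ ot s' = bb F ∧ s' 0 = 0 ∧
        ∀ j : Fin r, s' j.castSucc.succ = s j.castSucc.castSucc) := by
  classical
  set a := coeff (u0 r d) f with ha_def
  set g := coeff (u1 r d) f with hg_def
  set D := F.totalDegree with hD
  set b := bb F with hb
  set N := b + 1 with hN
  obtain ⟨s0, hs0, hs0D, hs0b⟩ := bb_spec hF
  rw [← hb] at hs0b
  rw [← hD] at hs0D
  have hs0l : s0 (Fin.last (r + 1)) = D - b := by
    have := degree_eq s0
    omega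
  have hbD : b ≤ D := by
    have := degree_eq s0
    omega
  obtain ⟨sW, hsW, hsWW⟩ := Finset.exists_mem_eq_sup F.support (support_nonempty.2 hF) (wt d)
  set W := F.support.sup (wt d) with hWdef
  have hW : ∀ s ∈ F.support, wt d s ≤ W := fun s hs => Finset.le_sup (f := wt d) hs
  have hWge : d * (D - b) + b ≤ W := by
    have h1 := hW s0 hs0
    unfold wt at h1
    rw [hs0l, hs0b] at h1
    exact h1
  set Ω := F.support.filter (fun s => wt d s = W) with hΩ
  have hΩne : sW ∈ Ω := Finset.mem_filter.2 ⟨hsW, hsWW.symm⟩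
  have hΩwt : ∀ s ∈ Ω, d * s (Fin.last (r + 1)) + ot s = W := fun s hs =>
    (Finset.mem_filter.1 hs).2
  have hΩdeg : ∀ s ∈ Ω, ot s + s (Fin.last (r + 1)) ≤ D := by
    intro s hs
    rw [← degree_eq]
    exact deg_le (Finset.mem_filter.1 hs).1
  have hΩlast : ∀ s ∈ Ω, D - b ≤ s (Fin.last (r + 1)) := fun s hs =>
    arith1 hd hbD (hWge.trans (hΩwt s hs).ge) (hΩdeg s hs)
  -- the polynomials in the newest component
  let p : (Fin r →₀ ℕ) → Polynomial K := fun τ =>
    ∑ s ∈ Ω with rs s = τ, Polynomial.monomial (s (Fin.last (r + 1)) - (D - b)) (coeff s F)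
  have hp1 : ∀ s ∈ Ω, (p (rs s)).coeff (s (Fin.last (r + 1)) - (D - b)) = coeff s F := by
    intro s hs
    simp only [p, Polynomial.finsetSum_coeff, Polynomial.coeff_monomial]
    rw [Finset.sum_eq_single s]
    · rw [if_pos rfl]
    · intro t ht hne
      rw [if_neg]
      intro h
      rw [Finset.mem_filter] at ht
      refine hne (ext_rs (d := d) ht.2 ?_ ?_)
      · have h1 := hΩlast s hs
        have h2 := hΩlast t ht.1
        omega
      · exact (hΩwt t ht.1).trans (hΩwt s hs).symm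
    · intro h
      exact (h (Finset.mem_filter.2 ⟨hs, rfl⟩)).elim
  have hp2 : ∀ τ n, (p τ).coeff n ≠ 0 → ∃ s ∈ Ω, rs s = τ ∧ s (Fin.last (r + 1)) = D - b + n := by
    intro τ n hn
    simp only [p, Polynomial.finsetSum_coeff, Polynomial.coeff_monomial] at hn
    obtain ⟨s, hs, hne⟩ := Finset.exists_ne_zero_of_sum_ne_zero hn
    rw [Finset.mem_filter] at hs
    refine ⟨s, hs.1, hs.2, ?_⟩
    have h1 := hΩlast s hs.1
    by_cases h2 : s (Fin.last (r + 1)) - (D - b) = n
    · omega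
    · rw [if_neg h2] at hne
      exact absurd rfl hne
  have hp0 : ∀ s ∈ Ω, p (rs s) ≠ 0 := by
    intro s hs h
    have h1 := hp1 s hs
    rw [h, Polynomial.coeff_zero] at h1
    exact mem_support_iff.1 (Finset.mem_filter.1 hs).1 h1.symm
  have hpdeg : ∀ s ∈ Ω, (p (rs s)).natDegree + (rs s).degree ≤ b := by
    intro s hs
    have h1 : (p (rs s)).coeff (p (rs s)).natDegree ≠ 0 :=
      Polynomial.leadingCoeff_ne_zero.2 (hp0 s hs)
    obtain ⟨t, ht, ht1, ht2⟩ := hp2 _ _ h1
    have h2 := hΩdeg t ht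
    have h3 := ot_eq_rs t
    rw [ht1] at h3
    omega
  -- the leading coefficient
  obtain ⟨β, hα, hβ⟩ := alpha_spec (N := N) (by omega) (by omega : 1 ≤ d) f hf
  rw [← ha_def] at hα
  rw [← hg_def] at hβ
  set α := (LL K r N f).coeff d with hαdef
  have hα0 : α.coeff 0 = C a := by
    rw [hα, Polynomial.coeff_add, Polynomial.coeff_C_zero, Polynomial.mul_coeff_zero,
      Polynomial.coeff_X_pow, if_neg (by omega), zero_mul, add_zero]
  set lam := (LL K r N (bind₁ (sh f) F)).coeff W with hlam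
  have hform : lam = ∑ s ∈ Ω, Polynomial.C (C (coeff s F)) *
      (α ^ (s (Fin.last (r + 1))) *
        (Polynomial.X ^ ((N + 1) * (rs s).degree) * Polynomial.C (monomial (rs s) 1))) :=
    lambda_formula hf hW
  set T := Ω.image rs with hT
  have hE : ∀ τ : Fin r →₀ ℕ, ∃ (E : Polynomial (MvPolynomial (Fin r) K)) (κ : K)
      (q : Polynomial K), τ ∈ T → κ ≠ 0 ∧ E.coeff 0 = C κ ∧
      Polynomial.aeval α (p τ) = Polynomial.X ^ (N * (p τ).rootMultiplicity a) * E ∧
      p τ = (Polynomial.X - Polynomial.C a) ^ (p τ).rootMultiplicity a * q ∧ q.eval a ≠ 0 := by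
    intro τ
    by_cases hτ : τ ∈ T
    · obtain ⟨s, hs, rfl⟩ := Finset.mem_image.1 hτ
      obtain ⟨E, κ, q, h⟩ := aeval_alpha (N := N) (by omega) hα hβ hg (hp0 s hs)
      exact ⟨E, κ, q, fun _ => h⟩
    · exact ⟨0, 0, 0, fun h => absurd h hτ⟩
  choose E κ q hEq using hE
  let n : (Fin r →₀ ℕ) → ℕ := fun τ => (N + 1) * τ.degree + N * (p τ).rootMultiplicity a
  have hform2 : lam = α ^ (D - b) *
      ∑ τ ∈ T, Polynomial.X ^ n τ * (Polynomial.C (monomial τ 1) * E τ) := by
    rw [hform, ← Finset.sum_fiberwise_of_maps_to (t := T) (g := rs)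
      (fun s hs => Finset.mem_image_of_mem rs hs), Finset.mul_sum]
    refine Finset.sum_congr rfl fun τ hτ => ?_
    have h1 : Polynomial.X ^ n τ * (Polynomial.C (monomial τ 1) * E τ) =
        Polynomial.X ^ ((N + 1) * τ.degree) * Polynomial.C (monomial τ (1 : K)) *
          Polynomial.aeval α (p τ) := by
      rw [(hEq τ hτ).2.2.1]
      simp only [n]
      rw [pow_add]
      ring
    rw [h1]
    simp only [p]
    rw [map_sum, Finset.mul_sum, Finset.mul_sum]
    refine Finset.sum_congr rfl fun s hs => ?_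
    rw [Finset.mem_filter] at hs
    rw [Polynomial.aeval_monomial, hs.2]
    have h2 : algebraMap K (Polynomial (MvPolynomial (Fin r) K)) (coeff s F) =
        Polynomial.C (C (coeff s F)) := rfl
    have h3 : α ^ (s (Fin.last (r + 1))) = α ^ (D - b) * α ^ (s (Fin.last (r + 1)) - (D - b)) := by
      rw [← pow_add, Nat.add_sub_cancel' (hΩlast s hs.1)]
    rw [h2, h3]
    ring
  obtain ⟨τ₀, hτ₀, hmin⟩ := Finset.exists_min_image T n ⟨rs sW, Finset.mem_image_of_mem rs hΩne⟩
  have hγ : (α ^ (D - b)).coeff 0 ≠ 0 := by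
    rw [← Polynomial.constantCoeff_apply, map_pow, Polynomial.constantCoeff_apply, hα0, ← C_pow]
    exact (C_ne_zero).2 (pow_ne_zero _ ha)
  have hlow : lam.coeff (n τ₀) ≠ 0 := by
    rw [hform2]
    exact low n E κ (fun τ hτ => (hEq τ hτ).2.1) (fun τ hτ => (hEq τ hτ).1) hγ hτ₀ hmin
  -- the composition
  set G := bind₁ (sh f) F with hG
  have hGle : G.totalDegree ≤ W := totalDegree_comp_le hf hW
  have hlam2 := (LL_coeff (N := N) G W hGle).2
  rw [← hlam] at hlam2
  have hGmem : ∃ u ∈ G.support, u.degree = W := by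
    by_contra hcon
    push Not at hcon
    refine hlow ?_
    rw [hlam2, Finset.filter_false_of_mem fun u hu => hcon u hu]
    simp
  have hG0 : G ≠ 0 := by
    obtain ⟨u, hu, _⟩ := hGmem
    rintro h
    rw [h] at hu
    simp at hu
  have hGdeg : G.totalDegree = W := by
    obtain ⟨u, hu, hud⟩ := hGmem
    exact le_antisymm hGle (hud ▸ deg_le hu)
  have hcoefG : ∀ k (τ : Fin r →₀ ℕ), MvPolynomial.coeff τ (lam.coeff k) ≠ 0 →
      ∃ u ∈ G.support, u.degree = W ∧ ee N u = k ∧ tu u = τ := by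
    intro k τ hk
    rw [hlam2, Polynomial.finsetSum_coeff, MvPolynomial.coeff_sum] at hk
    obtain ⟨u, hu, hne⟩ := Finset.exists_ne_zero_of_sum_ne_zero hk
    rw [Finset.mem_filter] at hu
    rw [Polynomial.coeff_C_mul, mul_comm (Polynomial.X ^ _), Polynomial.coeff_C_mul_X_pow,
      MvPolynomial.coeff_C_mul] at hne
    by_cases h1 : k = ee N u
    · rw [if_pos h1, MvPolynomial.coeff_monomial] at hne
      by_cases h2 : tu u = τ
      · exact ⟨u, hu.1, hu.2, h1.symm, h2⟩
      · rw [if_neg h2, mul_zero] at hne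
        exact absurd rfl hne
    · rw [if_neg h1, MvPolynomial.coeff_zero, mul_zero] at hne
      exact absurd rfl hne
  have hlow2 : N * bb G ≤ n τ₀ := by
    obtain ⟨τ, hτ⟩ := MvPolynomial.ne_zero_iff.1 hlow
    obtain ⟨u, hu, hud, hue, -⟩ := hcoefG _ _ hτ
    have h1 : bb G ≤ ot u := bb_le hu (hud.trans hGdeg.symm)
    have h2 := ot_eq_tu u
    have h3 : N * bb G ≤ N * ot u := Nat.mul_le_mul_left _ h1
    rw [h2, mul_add] at h3
    unfold ee at hue
    have h4 : N * (tu u).degree ≤ (N + 1) * (tu u).degree := Nat.mul_le_mul_right _ (by omega)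
    omega
  have hnle : ∀ τ ∈ T, (p τ).rootMultiplicity a + τ.degree ≤ b := by
    intro τ hτ
    obtain ⟨s, hs, rfl⟩ := Finset.mem_image.1 hτ
    have h1 := hpdeg s hs
    have h2 : (p (rs s)).rootMultiplicity a ≤ (p (rs s)).natDegree := by
      rw [Polynomial.rootMultiplicity_le_iff (hp0 s hs)]
      intro h3
      have h4 := Polynomial.natDegree_le_of_dvd h3 (hp0 s hs)
      rw [Polynomial.natDegree_pow, Polynomial.natDegree_X_sub_C, mul_one] at h4
      omega
    omega
  have hbb : bb G ≤ b := by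
    have h1 := hnle τ₀ hτ₀
    have h2 : n τ₀ ≤ N * b + b := by
      simp only [n]
      have h3 : N * (p τ₀).rootMultiplicity a + N * τ₀.degree ≤ N * b := by
        rw [← mul_add]
        exact Nat.mul_le_mul_left _ h1
      rw [add_mul, one_mul]
      omega
    by_contra hcon
    push Not at hcon
    have h4 : N * (b + 1) ≤ N * bb G := Nat.mul_le_mul_left _ hcon
    rw [mul_add, mul_one] at h4
    omega
  refine ⟨hG0, hbb, fun heq => ?_⟩
  -- equality
  have hTdeg : ∀ τ ∈ T, τ.degree = b := by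
    intro τ hτ
    have h1 := hnle τ hτ
    have h2 := hmin τ hτ
    rw [heq] at hlow2
    have h3 : b ≤ (p τ).rootMultiplicity a + τ.degree := by
      by_contra hcon
      push Not at hcon
      have h4 : N * ((p τ).rootMultiplicity a + τ.degree + 1) ≤ N * b := Nat.mul_le_mul_left _ hcon
      have h5 : n τ = N * ((p τ).rootMultiplicity a + τ.degree) + τ.degree := by
        simp only [n]
        ring
      rw [mul_add, mul_one] at h4
      omega
    by_contra hne
    obtain ⟨s, hs, rfl⟩ := Finset.mem_image.1 hτ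
    have h4 := hpdeg s hs
    have h5 : (p (rs s)).rootMultiplicity a ≤ (p (rs s)).natDegree := by
      rw [Polynomial.rootMultiplicity_le_iff (hp0 s hs)]
      intro h3
      have h4 := Polynomial.natDegree_le_of_dvd h3 (hp0 s hs)
      rw [Polynomial.natDegree_pow, Polynomial.natDegree_X_sub_C, mul_one] at h4
      omega
    have h6 : (p (rs s)).natDegree = (p (rs s)).rootMultiplicity a := by omega
    obtain ⟨-, -, -, hfac, hqa⟩ := hEq (rs s) hτ
    set ρ := (p (rs s)).rootMultiplicity a with hρ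
    have hρ1 : 1 ≤ ρ := by omega
    have hq0 : (q (rs s)).natDegree = 0 := by
      have h7 : q (rs s) ≠ 0 := by
        intro h8
        rw [h8, Polynomial.eval_zero] at hqa
        exact hqa rfl
      have h8 := congrArg Polynomial.natDegree hfac
      rw [Polynomial.natDegree_mul (pow_ne_zero _ (Polynomial.X_sub_C_ne_zero a)) h7,
        Polynomial.natDegree_pow, Polynomial.natDegree_X_sub_C, mul_one, h6] at h8
      omega
    obtain ⟨c, hc⟩ := Polynomial.natDegree_eq_zero.1 hq0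
    have hc0 : c ≠ 0 := by
      rw [← hc, Polynomial.eval_C] at hqa
      exact hqa
    have h7 : (p (rs s)).coeff 0 ≠ 0 := by
      rw [hfac, ← hc, Polynomial.mul_coeff_zero, Polynomial.coeff_C_zero,
        ← Polynomial.constantCoeff_apply, map_pow, map_sub, Polynomial.constantCoeff_apply,
        Polynomial.constantCoeff_apply, Polynomial.coeff_X_zero, Polynomial.coeff_C_zero, zero_sub]
      exact mul_ne_zero (pow_ne_zero _ (neg_ne_zero.2 ha)) hc0
    have h8 : (p (rs s)).coeff ρ ≠ 0 := by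
      have h9 := Polynomial.leadingCoeff_ne_zero.2 (hp0 s hs)
      rw [Polynomial.leadingCoeff, h6] at h9
      exact h9
    obtain ⟨t0, ht0, ht0r, ht0l⟩ := hp2 _ _ h7
    obtain ⟨t1, ht1, ht1r, ht1l⟩ := hp2 _ _ h8
    have h9 := ot_eq_rs t1
    rw [ht1r] at h9
    exact arith2 (t := (rs s).degree) hd hbD hρ1 (by omega) ht1l (hΩwt t0 ht0) (hΩwt t1 ht1)
      (hΩdeg t0 ht0) (hΩdeg t1 ht1) (by omega) (by omega)
  have hΩall : ∀ s ∈ Ω, (rs s).degree = b ∧ s (Fin.last r).castSucc = 0 ∧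
      s (Fin.last (r + 1)) = D - b := by
    intro s hs
    have h1 := hTdeg (rs s) (Finset.mem_image_of_mem rs hs)
    have h2 := hΩdeg s hs
    have h3 := hΩlast s hs
    have h4 := ot_eq_rs s
    refine ⟨h1, by omega, by omega⟩
  have hWeq : W = d * (D - b) + b := by
    obtain ⟨h1, h2, h3⟩ := hΩall sW hΩne
    have h4 := hΩwt sW hΩne
    have h5 := ot_eq_rs sW
    rw [h3] at h4
    omega
  intro s hs hsD hsb
  have hsl : s (Fin.last (r + 1)) = D - b := by
    have := degree_eq s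
    omega
  have hsΩ : s ∈ Ω := by
    refine Finset.mem_filter.2 ⟨hs, ?_⟩
    unfold wt
    rw [hsl, hsb, hWeq]
  refine ⟨(hΩall s hsΩ).2.1, ?_⟩
  have hne : MvPolynomial.coeff (rs s) (lam.coeff ((N + 1) * b)) ≠ 0 := by
    have h1 : lam = α ^ (D - b) * (Polynomial.X ^ ((N + 1) * b) *
        ∑ t ∈ Ω, Polynomial.C (monomial (rs t) (coeff t F))) := by
      rw [hform, Finset.mul_sum, Finset.mul_sum]
      refine Finset.sum_congr rfl fun t ht => ?_
      obtain ⟨h1, -, h3⟩ := hΩall t ht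
      have h4 : (monomial (rs t) (coeff t F) : MvPolynomial (Fin r) K) =
          C (coeff t F) * monomial (rs t) 1 := by
        rw [C_mul_monomial, mul_one]
      rw [h1, h3, h4, Polynomial.C_mul]
      ring
    have h2 : lam.coeff ((N + 1) * b) = C (a ^ (D - b)) * ∑ t ∈ Ω, monomial (rs t) (coeff t F) := by
      rw [h1, mul_left_comm]
      have h3 := Polynomial.coeff_X_pow_mul (α ^ (D - b) *
        ∑ t ∈ Ω, Polynomial.C (monomial (rs t) (coeff t F))) ((N + 1) * b) 0
      rw [zero_add] at h3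
      rw [h3, Polynomial.mul_coeff_zero, ← map_sum, Polynomial.coeff_C_zero,
        ← Polynomial.constantCoeff_apply, map_pow, Polynomial.constantCoeff_apply, hα0, C_pow]
    rw [h2, MvPolynomial.coeff_C_mul, MvPolynomial.coeff_sum, Finset.sum_eq_single s]
    · rw [MvPolynomial.coeff_monomial, if_pos rfl]
      exact mul_ne_zero (pow_ne_zero _ ha) (mem_support_iff.1 hs)
    · intro t ht htne
      rw [MvPolynomial.coeff_monomial, if_neg]
      intro h3
      refine htne (ext_rs (d := d) h3 ?_ ?_)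
      · rw [hsl, (hΩall t ht).2.2]
      · exact (hΩwt t ht).trans (hΩwt s hsΩ).symm
    · intro h3
      exact absurd hsΩ h3
  obtain ⟨u, hu, hud, hue, hut⟩ := hcoefG _ _ hne
  have h1 := (hΩall s hsΩ).1
  have hu0 : u 0 = 0 := by
    unfold ee at hue
    rw [hut, h1] at hue
    have h2 : N * u 0 = 0 := by omega
    rcases Nat.mul_eq_zero.1 h2 with h3 | h3
    · omega
    · exact h3
  refine ⟨u, hu, hud.trans hGdeg.symm, ?_, hu0, fun j => ?_⟩
  · rw [ot_eq_tu, hu0, hut, h1, zero_add]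
  · exact DFunLike.congr_fun hut j

end Pool.Agent.Helper26.RR
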