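import Pool.Agent.Helper26.RR.Step

/-!
# Termination
-/

set_option autoImplicit false

namespace Pool.Agent.Helper26.RR

open MvPolynomial

variable {K : Type*} [Field K] {r d : ℕ}

/-- the composition -/
noncomputable def cmp {m : ℕ} (f : MvPolynomial (Fin (m + 1)) K)
    (F : MvPolynomial (Fin (m + 1)) K) : MvPolynomial (Fin (m + 1)) K := bind₁ (sh f) F

theorem coeff_of_bb_zero {m : ℕ} {F : MvPolynomial (Fin (m + 1)) K} (hF : F ≠ 0)
    (hb : bb F = 0) : coeff (Finsupp.single (Fin.last m) F.totalDegree) F ≠ 0 := by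
  obtain ⟨s, hs, hsD, hsb⟩ := bb_spec hF
  rw [hb] at hsb
  have h1 : s = Finsupp.single (Fin.last m) F.totalDegree := by
    have h2 := degree_eq s
    rw [hsb, zero_add, hsD] at h2
    ext i
    refine Fin.lastCases ?_ (fun j => ?_) i
    · rw [Finsupp.single_eq_same, h2]
    · rw [Finsupp.single_eq_of_ne (Fin.castSucc_lt_last j).ne]
      have h3 : s j.castSucc ≤ ot s :=
        Finset.single_le_sum (f := fun i : Fin m => s i.castSucc) (fun _ _ => Nat.zero_le _)
          (Finset.mem_univ j)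
      omega
  rw [← h1]
  exact mem_support_iff.1 hs

theorem cmp_ne (hd : 2 ≤ d) {f : MvPolynomial (Fin (r + 2)) K} (hf : f.totalDegree ≤ d)
    (ha : coeff (u0 r d) f ≠ 0) (hg : coeff (u1 r d) f ≠ 0)
    {F : MvPolynomial (Fin (r + 2)) K} (hF : F ≠ 0) (k : ℕ) : (cmp f)^[k] F ≠ 0 := by
  induction k with
  | zero => exact hF
  | succ k ih =>
    rw [Function.iterate_succ_apply']
    exact (step hd hf ha hg ih).1

theorem cmp_bb_le (hd : 2 ≤ d) {f : MvPolynomial (Fin (r + 2)) K} (hf : f.totalDegree ≤ d)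
    (ha : coeff (u0 r d) f ≠ 0) (hg : coeff (u1 r d) f ≠ 0)
    {F : MvPolynomial (Fin (r + 2)) K} (hF : F ≠ 0) (k : ℕ) :
    bb ((cmp f)^[k] F) ≤ bb F := by
  induction k with
  | zero => exact le_rfl
  | succ k ih =>
    rw [Function.iterate_succ_apply']
    exact (step hd hf ha hg (cmp_ne hd hf ha hg hF k)).2.1.trans ih

/-- the order drops after `r + 1` steps -/
theorem drop (hd : 2 ≤ d) {f : MvPolynomial (Fin (r + 2)) K} (hf : f.totalDegree ≤ d)
    (ha : coeff (u0 r d) f ≠ 0) (hg : coeff (u1 r d) f ≠ 0)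
    {F : MvPolynomial (Fin (r + 2)) K} (hF : F ≠ 0) (hb : bb F ≠ 0) :
    ∃ k, bb ((cmp f)^[k] F) < bb F := by
  by_contra hcon
  push Not at hcon
  have heq : ∀ k, bb ((cmp f)^[k] F) = bb F := fun k =>
    le_antisymm (cmp_bb_le hd hf ha hg hF k) (hcon k)
  have key : ∀ k, ∃ s ∈ ((cmp f)^[k] F).support, s.degree = ((cmp f)^[k] F).totalDegree ∧
      ot s = bb F ∧ ∀ i : Fin (r + 1), (i : ℕ) < k → s i.castSucc = 0 := by
    intro k
    induction k with
    | zero =>
      obtain ⟨s, hs, hsD, hsb⟩ := bb_spec hF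
      exact ⟨s, hs, hsD, hsb, fun i hi => absurd hi (Nat.not_lt_zero _)⟩
    | succ k ih =>
      obtain ⟨s, hs, hsD, hsb, hz⟩ := ih
      have h1 := (step hd hf ha hg (cmp_ne hd hf ha hg hF k)).2.2 (by
        have h2 := heq (k + 1)
        rw [Function.iterate_succ_apply'] at h2
        exact h2.trans (heq k).symm) s hs hsD (hsb.trans (heq k).symm)
      obtain ⟨hr, s', hs', hsD', hsb', h0, hsh⟩ := h1
      rw [Function.iterate_succ_apply']
      refine ⟨s', hs', hsD', hsb'.trans (heq k), fun i => ?_⟩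
      refine Fin.cases (fun _ => ?_) (fun j hj => ?_) i
      · exact h0
      · have h3 : s' j.succ.castSucc = s j.castSucc.castSucc := by
          rw [← Fin.succ_castSucc]
          exact hsh j
        rw [h3]
        refine hz j.castSucc ?_
        rw [Fin.val_succ] at hj
        rw [Fin.val_castSucc]
        omega
  obtain ⟨s, -, -, hsb, hz⟩ := key (r + 1)
  refine hb (hsb ▸ ?_)
  exact Finset.sum_eq_zero fun i _ => hz i i.2

theorem term_aux (hd : 2 ≤ d) {f : MvPolynomial (Fin (r + 2)) K} (hf : f.totalDegree ≤ d)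
    (ha : coeff (u0 r d) f ≠ 0) (hg : coeff (u1 r d) f ≠ 0) (n : ℕ) :
    ∀ F : MvPolynomial (Fin (r + 2)) K, F ≠ 0 → bb F ≤ n → ∃ k, bb ((cmp f)^[k] F) = 0 := by
  induction n with
  | zero =>
    intro F _ h
    exact ⟨0, Nat.le_zero.1 h⟩
  | succ n ih =>
    intro F hF h
    by_cases hb : bb F = 0
    · exact ⟨0, hb⟩
    · obtain ⟨k, hk⟩ := drop hd hf ha hg hF hb
      obtain ⟨l, hl⟩ := ih _ (cmp_ne hd hf ha hg hF k) (by omega)
      refine ⟨l + k, ?_⟩
      rw [Function.iterate_add_apply]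
      exact hl

/-- **Termination.** Let `f` have degree at most `d ≥ 2` and nonzero coefficients at the power
`x_m ^ d` of the newest value and at `x_0 x_m ^ (d - 1)` (`x_0` the oldest value). Then for every
polynomial `F ≠ 0` some composition `F ∘ Φᵏ` with the shift map contains a pure power of the newest
value in its form of highest degree. -/
theorem term {m d : ℕ} (hd : 2 ≤ d) {f : MvPolynomial (Fin (m + 1)) K} (hf : f.totalDegree ≤ d)
    (ha : coeff (Finsupp.single (Fin.last m) d) f ≠ 0)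
    (hg : coeff (Finsupp.single 0 1 + Finsupp.single (Fin.last m) (d - 1)) f ≠ 0)
    {F : MvPolynomial (Fin (m + 1)) K} (hF : F ≠ 0) :
    ∃ k : ℕ, coeff (Finsupp.single (Fin.last m) (((fun G => bind₁ (sh f) G)^[k] F).totalDegree))
      ((fun G => bind₁ (sh f) G)^[k] F) ≠ 0 := by
  rcases m with _ | r
  · refine ⟨0, ?_⟩
    refine coeff_of_bb_zero hF ?_
    obtain ⟨s, hs, hsD, hsb⟩ := bb_spec hF
    rw [Function.iterate_zero, id, ← hsb]
    rfl
  · obtain ⟨k, hk⟩ := term_aux hd hf ha hg (bb F) F hF le_rfl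
    exact ⟨k, coeff_of_bb_zero (cmp_ne hd hf ha hg hF k) hk⟩

end Pool.Agent.Helper26.RR
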